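import Pool.Agent.H.MP_b87acb_an.C
import Pool.Agent.H.MP_afe93a_an.P

set_option linter.unusedSimpArgs false

open Complex Finset Matrix Pool.Agent.H.MP_b87acb_an
open scoped ComplexConjugate

namespace Pool.Agent.H.MP_afe93a_an

noncomputable section

def nu : ℂ := ⟨27 / 365, 364 / 365⟩
lemma nu_norm : ‖nu‖ = 1 := by
  rw [← sq_eq_sq₀ (norm_nonneg _) zero_le_one, Complex.sq_norm, normSq_apply]; norm_num [nu]

def UU (m : ℕ) : Matrix (Fin (m + 1)) (Fin (m + 1)) ℂ := diagonal fun k => nu ^ (2 * k.1)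
def VV (m : ℕ) : Matrix (Fin (m + 1)) (Fin (m + 1)) ℂ := .of fun p q => if p.1 = q.1 + 1 then 1 else 0

variable {m : ℕ}

lemma V0 (v : Fin (m + 1) → ℂ) : (VV m *ᵥ v) 0 = 0 := by simp [VV, mulVec, dotProduct]
lemma Vs (v : Fin (m + 1) → ℂ) (j : Fin m) : (VV m *ᵥ v) j.succ = v j.castSucc := by
  simp only [VV, mulVec, dotProduct, of_apply, Fin.val_succ, add_left_inj]
  rw [sum_eq_single j.castSucc (fun q _ hq => by rw [if_neg (fun h => hq (Fin.ext h.symm)), zero_mul])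
    (by simp)]
  simp

lemma Vsum (v : Fin (m + 1) → ℂ) {s : ℕ → ℝ} (hs : ∀ k, 0 ≤ s k) :
    ∑ k : Fin (m + 1), s k * ‖(VV m *ᵥ v) k‖ ^ 2 ≤ ∑ k : Fin (m + 1), s (k + 1) * ‖v k‖ ^ 2 := by
  rw [Fin.sum_univ_succ, Fin.sum_univ_castSucc]
  simp only [V0, Vs, Fin.val_succ, Fin.val_castSucc]
  have := hs ((Fin.last m).1 + 1)
  rw [norm_zero, zero_pow two_ne_zero, mul_zero, zero_add]
  exact le_add_of_nonneg_right (by positivity)

lemma core {w1 w2 w3 : ℂ} (h1 : ‖w1‖ = 1) (h2 : ‖w2‖ = 1) (h3 : ‖w3‖ = 1) :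
    ‖tE (w1 • 1 + w2 • UU m + w3 • VV m)‖ ≤ √(5985 / 1000) := by
  obtain ⟨η, hη⟩ := IsAlgClosed.exists_pow_nat_eq (w2 * conj w1) two_pos
  have n1 : ‖η‖ = 1 := by
    have := congrArg norm hη
    rwa [norm_pow, norm_mul, h2, RCLike.norm_conj, h1, one_mul,
      pow_eq_one_iff_of_nonneg (norm_nonneg η) two_ne_zero] at this
  set x : ℕ → ℂ := fun k => η * nu ^ k with hx
  have x1 : ∀ k, (x k).re ^ 2 + (x k).im ^ 2 = 1 := fun k => by
    have : ‖x k‖ ^ 2 = 1 := by simp [hx, n1, nu_norm]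
    rw [Complex.sq_norm, normSq_apply] at this; linarith
  set S : ℕ → ℝ := fun k => Pp (x k).re (x k).im with hS
  have S0 : ∀ k, 0 < S k := fun k => Pp_pos (x1 k)
  have hD : ∀ k, ‖w1 + w2 * nu ^ (2 * k)‖ ^ 2 = 4 * (x k).re ^ 2 := fun k => by
    have e : w1 + w2 * nu ^ (2 * k) = w1 * (1 + x k ^ 2) := by
      have : w1 * conj w1 = 1 := by rw [mul_conj, normSq_eq_norm_sq, h1]; simp
      simp only [hx]; rw [mul_pow, hη, ← pow_mul, mul_comm k]
      linear_combination -w2 * nu ^ (2 * k) * this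
    rw [e, norm_mul, h1, one_mul, Complex.sq_norm, normSq_apply]
    simp only [sq, add_re, one_re, mul_re, add_im, one_im, mul_im]
    linear_combination ((x k).re ^ 2 + (x k).im ^ 2 - 1) * x1 k + 0 * x1 k
  have hk : ∀ k, (1 + (S k)⁻¹) * (4 * (x k).re ^ 2) + (1 + S (k + 1)) ≤ 5985 / 1000 := fun k => by
    have := Pp_key (x1 k)
    have e : S (k + 1) = Pp (27 / 365 * (x k).re - 364 / 365 * (x k).im)
        (364 / 365 * (x k).re + 27 / 365 * (x k).im) := by
      rw [hS]; simp only [show x (k + 1) = x k * nu by simp only [hx]; ring, mul_re, mul_im, nu]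
      congr 1 <;> ring
    rw [← e] at this
    refine le_of_mul_le_mul_left ?_ (S0 k)
    have := mul_inv_cancel₀ (S0 k).ne'
    simp only [hS] at *
    nlinarith
  refine ContinuousLinearMap.opNorm_le_bound _ (Real.sqrt_nonneg _) fun v => ?_
  rw [EuclideanSpace.norm_eq, EuclideanSpace.norm_eq, ← Real.sqrt_mul (by norm_num), mul_sum]
  refine Real.sqrt_le_sqrt ?_
  have t : ∀ k : Fin (m + 1), ‖(tE (w1 • 1 + w2 • UU m + w3 • VV m) v) k‖ ^ 2 ≤
      (1 + (S k)⁻¹) * (4 * (x k).re ^ 2) * ‖v k‖ ^ 2 + (1 + S k) * ‖(VV m *ᵥ v.ofLp) k‖ ^ 2 := fun k => by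
    have e : (tE (w1 • 1 + w2 • UU m + w3 • VV m) v) k =
        (w1 + w2 * nu ^ (2 * k.1)) * v k + w3 * (VV m *ᵥ v.ofLp) k := by
      rw [ofLp_toEuclideanCLM]
      simp [add_mulVec, smul_mulVec, UU, mulVec_diagonal]; ring
    rw [e, ← hD]
    refine (pow_le_pow_left₀ (norm_nonneg _) (norm_add_le _ _) 2).trans ?_
    rw [norm_mul, norm_mul, h3, one_mul, mul_assoc, ← mul_pow]
    generalize ‖w1 + w2 * nu ^ (2 * k.1)‖ * ‖v k‖ = a
    generalize ‖(VV m *ᵥ v.ofLp) k‖ = b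
    have := S0 k
    rw [← sub_nonneg, show (1 + (S k)⁻¹) * a ^ 2 + (1 + S k) * b ^ 2 - (a + b) ^ 2 =
      (a - S k * b) ^ 2 / S k by field_simp; ring]
    positivity
  refine (sum_le_sum fun k _ => t k).trans ?_
  rw [sum_add_distrib]
  refine (add_le_add_right (Vsum v.ofLp (s := fun k => 1 + S k) fun k => by linarith [S0 k]) _).trans ?_
  rw [← sum_add_distrib]
  exact sum_le_sum fun k _ => by rw [← add_mul]; gcongr; exact hk k

lemma split {z : ℂ} {r : ℝ} (h : ‖z‖ ≤ r) : ∃ w w' : ℂ, ‖w‖ = 1 ∧ ‖w'‖ = 1 ∧ z = (r / 2 : ℝ) * (w + w') := by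
  obtain ⟨c, hc, e⟩ := exists_norm_mul_eq_self z
  have r0 := (norm_nonneg z).trans h
  have t1 : (‖z‖ / r) ^ 2 ≤ 1 := pow_le_one₀ (by positivity) (div_le_one_of_le₀ h r0)
  have s1 := Real.sq_sqrt (sub_nonneg.2 t1)
  have n : ∀ s : ℝ, s ^ 2 = 1 - (‖z‖ / r) ^ 2 → ‖c * ⟨‖z‖ / r, s⟩‖ = 1 := fun s hs => by
    rw [norm_mul, hc, one_mul, ← sq_eq_sq₀ (norm_nonneg _) zero_le_one, Complex.sq_norm, normSq_apply]
    linarith
  refine ⟨_, _, n _ s1, n (-√(1 - (‖z‖ / r) ^ 2)) (by rw [neg_sq, s1]), ?_⟩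
  rw [← mul_add, show (⟨‖z‖ / r, √(1 - (‖z‖ / r) ^ 2)⟩ : ℂ) + ⟨‖z‖ / r, -√(1 - (‖z‖ / r) ^ 2)⟩ =
    (2 * (‖z‖ / r) : ℝ) by apply Complex.ext <;> simp [two_mul], mul_left_comm, ← ofReal_mul]
  conv_lhs => rw [← e]
  congr 2
  rcases r0.eq_or_lt with rfl | h0
  · simpa using h
  · field_simp

theorem low3 : ENNReal.ofReal 1.226 ≤ alpha (Fin 3 → ℂ) := by
  set m := 9999 with hm
  have s1 := Real.sq_sqrt (show (0 : ℝ) ≤ 10000 by norm_num)
  have s2 := Real.sq_sqrt (show (0 : ℝ) ≤ 5985 / 1000 by norm_num)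
  have s3 : 0 < √(5985 / 1000) := by positivity
  have u1 : ∀ k, conj nu ^ k * nu ^ k = 1 := fun k => by
    rw [← mul_pow, conj_mul', nu_norm]; simp
  have c1 : ∀ i, ‖tE (![1, (UU m)ᴴ, VV m] i)‖ ≤ 1 := fun i => by
    fin_cases i
    · simp
    · simpa using nb (A := (UU m)ᴴ) (B := 0) (c := 1) (by simp [UU, mul_comm (nu ^ _), u1])
    · refine ContinuousLinearMap.opNorm_le_bound _ zero_le_one fun v => ?_
      rw [EuclideanSpace.norm_eq, EuclideanSpace.norm_eq, one_mul]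
      simpa using Real.sqrt_le_sqrt (Vsum v.ofLp (s := fun _ => 1) fun _ => zero_le_one)
  refine le_trans (ENNReal.ofReal_le_ofReal ?_) (lower (fun i => Pi.single i 1)
    (fun i => ContinuousLinearMap.proj i) (fun i j => by simp [Pi.single_apply]) ![1, (UU m)ᴴ, VV m]
    (fun i => (((√(5985 / 1000))⁻¹ : ℝ) : ℂ) • ![1, UU m, VV m] i) (fun f hf => ?_)
    (fun v => ?_) ((((√10000)⁻¹ : ℝ) : ℂ) • 1) ?_)
  · refine Real.le_sqrt_of_sq_le (le_trans ?_ (sum_le_sum fun p _ =>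
      single_le_sum (fun _ _ => sq_nonneg _) (mem_univ p)))
    rw [Fin.sum_univ_succ]
    refine le_add_of_nonneg_of_le (sq_nonneg _) (le_trans ?_ (card_nsmul_le_sum _ _
      (9 / (10000 * (5985 / 1000))) fun j _ => le_of_eq ?_))
    · rw [card_univ, Fintype.card_fin, hm]; norm_num
    · have : (VV m * (VV m)ᵀ) j.succ j.succ = 1 := by
        have := Vs (fun q => VV m j.succ q) j
        exact this.trans (by simp [VV])
      simp only [Fin.sum_univ_three, Matrix.cons_val, transpose_smul, Matrix.mul_smul, Matrix.smul_mul,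
        Matrix.mul_one, Matrix.add_apply, Matrix.smul_apply, this, UU, diagonal_transpose,
        diagonal_conjTranspose, diagonal_mul_diagonal, diagonal_apply_eq, transpose_one, one_apply_eq,
        Pi.star_apply, RCLike.star_def, map_pow, u1, smul_eq_mul, mul_one, ← ofReal_mul, ← ofReal_add,
        norm_real, Real.norm_eq_abs, sq_abs]
      rw [← two_mul, ← add_one_mul, mul_pow, mul_pow, inv_pow, inv_pow, s1, s2]; norm_num
  · choose w w1 w2 using fun i => exists_norm_eq_mul_self (f (Pi.single i 1))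
    have e : f w = (∑ i, ‖f (Pi.single i 1)‖ : ℝ) := by
      conv_lhs => rw [show w = ∑ i, w i • Pi.single i 1 by ext j; simp [Pi.single_apply]]
      rw [map_sum]; simp only [map_smul, smul_eq_mul, ← w2, ofReal_sum]
    have := f.le_of_opNorm_le hf w
    rw [e, norm_real, Real.norm_of_nonneg (by positivity), one_mul] at this
    rw [tE, map_sum]
    refine (norm_sum_le_of_le _ fun i _ => ?_).trans (this.trans
      ((pi_norm_le_iff_of_nonneg zero_le_one).2 fun i => (w1 i).le))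
    rw [map_smul, norm_smul]; exact mul_le_of_le_one_right (norm_nonneg _) (c1 i)
  · choose w w' a1 a2 a3 using fun i => split (norm_le_pi_norm v i)
    rw [show ∑ i, ContinuousLinearMap.proj (R := ℂ) (φ := fun _ : Fin 3 => ℂ) i v •
        (((√(5985 / 1000))⁻¹ : ℝ) : ℂ) • ![1, UU m, VV m] i = (((√(5985 / 1000))⁻¹ * (‖v‖ / 2) : ℝ) : ℂ) •
        ((w 0 • 1 + w 1 • UU m + w 2 • VV m) + (w' 0 • 1 + w' 1 • UU m + w' 2 • VV m)) by
      simp only [Fin.sum_univ_three, Matrix.cons_val, ContinuousLinearMap.proj_apply]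
      rw [a3 0, a3 1, a3 2, ofReal_mul]
      module, tE, map_smul, map_add, norm_smul, norm_real, Real.norm_of_nonneg (by positivity)]
    refine (mul_le_mul_of_nonneg_left ((norm_add_le _ _).trans (add_le_add (core (a1 0) (a1 1) (a1 2))
      (core (a2 0) (a2 1) (a2 2)))) (by positivity)).trans_eq ?_
    field_simp; ring
  · simp only [Matrix.smul_apply, one_apply, smul_eq_mul, mul_ite, mul_one, mul_zero, apply_ite norm,
      norm_zero, ite_pow, norm_real, Real.norm_eq_abs, sq_abs, inv_pow, s1]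
    simp [hm]

end
end Pool.Agent.H.MP_afe93a_an
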